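import Pool.Agent.Helper317.CADS.Final

/-!
`CADS` does not imply `COH` over `RCA₀`.

A stable order is by definition infinite (unbounded in the model), discrete, and each of its
elements has only finitely many predecessors or only finitely many successors.
-/

namespace Pool.Agent.Results.MP_82b75a_lc.CadsWithoutCoh

open Pool.Agent.Helper317.SOA

/-- The negated form of the question holds: there is a model of `RCA₀ + CADS` in which `COH`
fails. -/
theorem result : ∃ M : Model, RCA0 M ∧ CADS M ∧ ¬ COH M :=
  Pool.Agent.Helper317.CADS.main

end Pool.Agent.Results.MP_82b75a_lc.CadsWithoutCoh
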